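import Pool.Agent.Lib_helper76.UEG.TAB
import Pool.Agent.Lib_helper76.UE5.U4

/-!
# Functions supported on the multiples of a point of order 6
-/

set_option autoImplicit false
set_option linter.unusedSectionVars false
set_option linter.unusedSimpArgs false
set_option linter.unusedVariables false
set_option linter.unusedTactic false
set_option linter.unreachableTactic false

namespace Pool.Agent.UE6

open WeierstrassCurve.Affine Polynomial UEG
open TN (Wt)

variable {k : Type*} [Field k] {F : Type*} [Field F] [Algebra k F] {t : k} {x y : F}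

/-- the coefficient `b` -/
def bb (t : k) : k := t ^ 2 + t

/-- the coefficient `c` -/
def cc (t : k) : k := t

/-- the basis of the functions supported on the multiples -/
def uF (t : k) (x y : F) : Fin 5 → F := ![x, (x - algebraMap k F (bb t)), (x - algebraMap k F (cc t)), y, (y - algebraMap k F (cc t) * x)]

/-- the abscissae of the multiples -/
def px (t : k) : Fin 5 → k := ![0, t * (t + 1), t, t * (t + 1), 0]

/-- the ordinates of the multiples -/
def py (t : k) : Fin 5 → k := ![0, t ^ 2 * (t + 1), t ^ 2, 0, t * (t + 1)]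

section lines

variable (ht : t ≠ 0) (hu : ∀ j, uF t x y j ≠ 0)
  (he : y ^ 2 + (1 - algebraMap k F (cc t)) * x * y - algebraMap k F (bb t) * y =
    x ^ 3 - algebraMap k F (bb t) * x ^ 2)

include ht hu he in
lemma l114 : IsMon k (uF t x y) (y - (algebraMap k F (0) * x + algebraMap k F (0))) := by
  have M3 : IsMon k (uF t x y) (y) := isMon_u (u := uF t x y) 3
  have e : (y - (algebraMap k F (0) * x + algebraMap k F (0))) = y := by
    simp only [bb, cc, map_add, map_sub, map_mul, map_pow, map_neg, map_one, map_zero, map_ofNat, map_div₀, map_inv₀, div_eq_mul_inv, mul_inv, inv_pow]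
    ring
  rw [e]
  exact M3

include ht hu he in
lemma l123 : IsMon k (uF t x y) (y - (algebraMap k F (t) * x + algebraMap k F (0))) := by
  have M4 : IsMon k (uF t x y) ((y - algebraMap k F (cc t) * x)) := isMon_u (u := uF t x y) 4
  have e : (y - (algebraMap k F (t) * x + algebraMap k F (0))) = (y - algebraMap k F (cc t) * x) := by
    simp only [bb, cc, map_add, map_sub, map_mul, map_pow, map_neg, map_one, map_zero, map_ofNat, map_div₀, map_inv₀, div_eq_mul_inv, mul_inv, inv_pow]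
    ring
  rw [e]
  exact M4

include ht hu he in
lemma l222 : IsMon k (uF t x y) (y - (algebraMap k F (2 * t) * x + algebraMap k F (-(t ^ 2 * (t + 1))))) := by
  have M1 : IsMon k (uF t x y) ((x - algebraMap k F (bb t))) := isMon_u (u := uF t x y) 1
  have M2 : IsMon k (uF t x y) ((x - algebraMap k F (cc t))) := isMon_u (u := uF t x y) 2
  have M3 : IsMon k (uF t x y) (y) := isMon_u (u := uF t x y) 3
  have M4 : IsMon k (uF t x y) ((y - algebraMap k F (cc t) * x)) := isMon_u (u := uF t x y) 4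
  have N2 : (x - algebraMap k F (cc t)) ≠ 0 := hu 2
  have N3 : y ≠ 0 := hu 3
  have e : (y - (algebraMap k F (2 * t) * x + algebraMap k F (-(t ^ 2 * (t + 1))))) =
      (x - algebraMap k F (bb t)) * (y - algebraMap k F (cc t) * x) * (y - algebraMap k F (cc t) * x) * ((x - algebraMap k F (cc t)) * y)⁻¹ := by
    rw [eq_mul_inv_iff_mul_eq₀ (mul_ne_zero N2 N3)]
    obtain ⟨T, hT⟩ : ∃ T, T = algebraMap k F t := ⟨_, rfl⟩
    have hT0 : T ≠ 0 := by rw [hT]; exact (_root_.map_ne_zero _).mpr ht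
    obtain ⟨W, hW⟩ : ∃ W, W = T⁻¹ := ⟨_, rfl⟩
    have hTW : T * W = 1 := by rw [hW]; exact mul_inv_cancel₀ hT0
    simp only [bb, cc, map_add, map_sub, map_mul, map_pow, map_neg, map_one, map_zero, map_ofNat, map_div₀, map_inv₀, div_eq_mul_inv, mul_inv, inv_pow, ← hT, ← hW] at he ⊢
    linear_combination (T ^ 2) * he + (0) * hTW
  rw [e]
  exact (((M1).mul hu M4).mul hu M4).mul hu ((M2).mul hu M3).inv

include ht hu he in
lemma l255 : IsMon k (uF t x y) (y - (algebraMap k F ((t - 1)) * x + algebraMap k F (t * (t + 1)))) := by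
  have M0 : IsMon k (uF t x y) (x) := isMon_u (u := uF t x y) 0
  have M1 : IsMon k (uF t x y) ((x - algebraMap k F (bb t))) := isMon_u (u := uF t x y) 1
  have M3 : IsMon k (uF t x y) (y) := isMon_u (u := uF t x y) 3
  have N3 : y ≠ 0 := hu 3
  have e : (y - (algebraMap k F ((t - 1)) * x + algebraMap k F (t * (t + 1)))) =
      x * x * (x - algebraMap k F (bb t)) * (y)⁻¹ := by
    rw [eq_mul_inv_iff_mul_eq₀ N3]
    obtain ⟨T, hT⟩ : ∃ T, T = algebraMap k F t := ⟨_, rfl⟩
    have hT0 : T ≠ 0 := by rw [hT]; exact (_root_.map_ne_zero _).mpr ht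
    obtain ⟨W, hW⟩ : ∃ W, W = T⁻¹ := ⟨_, rfl⟩
    have hTW : T * W = 1 := by rw [hW]; exact mul_inv_cancel₀ hT0
    simp only [bb, cc, map_add, map_sub, map_mul, map_pow, map_neg, map_one, map_zero, map_ofNat, map_div₀, map_inv₀, div_eq_mul_inv, mul_inv, inv_pow, ← hT, ← hW] at he ⊢
    linear_combination (1) * he + (0) * hTW
  rw [e]
  exact (((M0).mul hu M0).mul hu M1).mul hu (M3).inv

include ht hu he in
lemma l345 : IsMon k (uF t x y) (y - (algebraMap k F (-(1)) * x + algebraMap k F (t * (t + 1)))) := by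
  have M0 : IsMon k (uF t x y) (x) := isMon_u (u := uF t x y) 0
  have M1 : IsMon k (uF t x y) ((x - algebraMap k F (bb t))) := isMon_u (u := uF t x y) 1
  have M2 : IsMon k (uF t x y) ((x - algebraMap k F (cc t))) := isMon_u (u := uF t x y) 2
  have M4 : IsMon k (uF t x y) ((y - algebraMap k F (cc t) * x)) := isMon_u (u := uF t x y) 4
  have N4 : (y - algebraMap k F (cc t) * x) ≠ 0 := hu 4
  have e : (y - (algebraMap k F (-(1)) * x + algebraMap k F (t * (t + 1)))) =
      x * (x - algebraMap k F (bb t)) * (x - algebraMap k F (cc t)) * ((y - algebraMap k F (cc t) * x))⁻¹ := by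
    rw [eq_mul_inv_iff_mul_eq₀ N4]
    obtain ⟨T, hT⟩ : ∃ T, T = algebraMap k F t := ⟨_, rfl⟩
    have hT0 : T ≠ 0 := by rw [hT]; exact (_root_.map_ne_zero _).mpr ht
    obtain ⟨W, hW⟩ : ∃ W, W = T⁻¹ := ⟨_, rfl⟩
    have hTW : T * W = 1 := by rw [hW]; exact mul_inv_cancel₀ hT0
    simp only [bb, cc, map_add, map_sub, map_mul, map_pow, map_neg, map_one, map_zero, map_ofNat, map_div₀, map_inv₀, div_eq_mul_inv, mul_inv, inv_pow, ← hT, ← hW] at he ⊢
    linear_combination (1) * he + (0) * hTW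
  rw [e]
  exact (((M0).mul hu M1).mul hu M2).mul hu (M4).inv

include ht hu he in
lemma l444 : IsMon k (uF t x y) (y - (algebraMap k F (-((t + 1))) * x + algebraMap k F (t * (t + 1) ^ 2))) := by
  have M1 : IsMon k (uF t x y) ((x - algebraMap k F (bb t))) := isMon_u (u := uF t x y) 1
  have M2 : IsMon k (uF t x y) ((x - algebraMap k F (cc t))) := isMon_u (u := uF t x y) 2
  have M3 : IsMon k (uF t x y) (y) := isMon_u (u := uF t x y) 3
  have M4 : IsMon k (uF t x y) ((y - algebraMap k F (cc t) * x)) := isMon_u (u := uF t x y) 4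
  have N4 : (y - algebraMap k F (cc t) * x) ≠ 0 := hu 4
  have e : (y - (algebraMap k F (-((t + 1))) * x + algebraMap k F (t * (t + 1) ^ 2))) =
      (x - algebraMap k F (bb t)) * (x - algebraMap k F (bb t)) * (x - algebraMap k F (cc t)) * y * ((y - algebraMap k F (cc t) * x) * (y - algebraMap k F (cc t) * x))⁻¹ := by
    rw [eq_mul_inv_iff_mul_eq₀ (mul_ne_zero N4 N4)]
    obtain ⟨T, hT⟩ : ∃ T, T = algebraMap k F t := ⟨_, rfl⟩
    have hT0 : T ≠ 0 := by rw [hT]; exact (_root_.map_ne_zero _).mpr ht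
    obtain ⟨W, hW⟩ : ∃ W, W = T⁻¹ := ⟨_, rfl⟩
    have hTW : T * W = 1 := by rw [hW]; exact mul_inv_cancel₀ hT0
    simp only [bb, cc, map_add, map_sub, map_mul, map_pow, map_neg, map_one, map_zero, map_ofNat, map_div₀, map_inv₀, div_eq_mul_inv, mul_inv, inv_pow, ← hT, ← hW] at he ⊢
    linear_combination (y - T ^ 3 - T ^ 2) * he + (0) * hTW
  rw [e]
  exact ((((M1).mul hu M1).mul hu M2).mul hu M3).mul hu ((M4).mul hu M4).inv

end lines

section table

variable (ht : t ≠ 0) (ht1 : t + 1 ≠ 0)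

include ht ht1 in
lemma nz (a b : ℕ) : t ^ a * (t + 1) ^ b ≠ 0 :=
  mul_ne_zero (pow_ne_zero _ ht) (pow_ne_zero _ ht1)

include ht ht1 in
lemma r11 : LineOK (bb t) (cc t) (0) (0) (0) (0)
    (0) (0) := by
  refine ⟨by (first | rfl | ring1 | (simp only [bb, cc]; ring1)), Or.inr ⟨rfl, rfl, fun h => by
      have e0 : t ^ 1 * (t + 1) ^ 1 = (-1 : k) * (2 * (0) + (1 - cc t) * (0) - bb t) := by (first | rfl | ring1 | (simp only [bb, cc]; ring1))
      rw [h, mul_zero] at e0
      exact nz ht ht1 1 1 e0, by (first | rfl | ring1 | (simp only [bb, cc]; ring1))⟩⟩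

include ht ht1 in
lemma r12 : LineOK (bb t) (cc t) (0) (0) (t * (t + 1)) (t ^ 2 * (t + 1))
    (t) (0) := by
  refine ⟨by (first | rfl | ring1 | (simp only [bb, cc]; ring1)), Or.inl ⟨fun h => by
      have e0 : t ^ 1 * (t + 1) ^ 1 = (-1 : k) * ((0) - (t * (t + 1))) := by (first | rfl | ring1 | (simp only [bb, cc]; ring1))
      rw [sub_eq_zero.mpr h, mul_zero] at e0
      exact nz ht ht1 1 1 e0, by (first | rfl | ring1 | (simp only [bb, cc]; ring1))⟩⟩

include ht ht1 in
lemma r13 : LineOK (bb t) (cc t) (0) (0) (t) (t ^ 2)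
    (t) (0) := by
  refine ⟨by (first | rfl | ring1 | (simp only [bb, cc]; ring1)), Or.inl ⟨fun h => by
      have e0 : t ^ 1 * (t + 1) ^ 0 = (-1 : k) * ((0) - (t)) := by (first | rfl | ring1 | (simp only [bb, cc]; ring1))
      rw [sub_eq_zero.mpr h, mul_zero] at e0
      exact nz ht ht1 1 0 e0, by (first | rfl | ring1 | (simp only [bb, cc]; ring1))⟩⟩

include ht ht1 in
lemma r14 : LineOK (bb t) (cc t) (0) (0) (t * (t + 1)) (0)
    (0) (0) := by
  refine ⟨by (first | rfl | ring1 | (simp only [bb, cc]; ring1)), Or.inl ⟨fun h => by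
      have e0 : t ^ 1 * (t + 1) ^ 1 = (-1 : k) * ((0) - (t * (t + 1))) := by (first | rfl | ring1 | (simp only [bb, cc]; ring1))
      rw [sub_eq_zero.mpr h, mul_zero] at e0
      exact nz ht ht1 1 1 e0, by (first | rfl | ring1 | (simp only [bb, cc]; ring1))⟩⟩

include ht ht1 in
lemma r22 : LineOK (bb t) (cc t) (t * (t + 1)) (t ^ 2 * (t + 1)) (t * (t + 1)) (t ^ 2 * (t + 1))
    (2 * t) (-(t ^ 2 * (t + 1))) := by
  refine ⟨by (first | rfl | ring1 | (simp only [bb, cc]; ring1)), Or.inr ⟨rfl, rfl, fun h => by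
      have e0 : t ^ 2 * (t + 1) ^ 1 = (1 : k) * (2 * (t ^ 2 * (t + 1)) + (1 - cc t) * (t * (t + 1)) - bb t) := by (first | rfl | ring1 | (simp only [bb, cc]; ring1))
      rw [h, mul_zero] at e0
      exact nz ht ht1 2 1 e0, by (first | rfl | ring1 | (simp only [bb, cc]; ring1))⟩⟩

include ht ht1 in
lemma r23 : LineOK (bb t) (cc t) (t * (t + 1)) (t ^ 2 * (t + 1)) (t) (t ^ 2)
    (t) (0) := by
  refine ⟨by (first | rfl | ring1 | (simp only [bb, cc]; ring1)), Or.inl ⟨fun h => by
      have e0 : t ^ 2 * (t + 1) ^ 0 = (1 : k) * ((t * (t + 1)) - (t)) := by (first | rfl | ring1 | (simp only [bb, cc]; ring1))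
      rw [sub_eq_zero.mpr h, mul_zero] at e0
      exact nz ht ht1 2 0 e0, by (first | rfl | ring1 | (simp only [bb, cc]; ring1))⟩⟩

include ht ht1 in
lemma r25 : LineOK (bb t) (cc t) (t * (t + 1)) (t ^ 2 * (t + 1)) (0) (t * (t + 1))
    ((t - 1)) (t * (t + 1)) := by
  refine ⟨by (first | rfl | ring1 | (simp only [bb, cc]; ring1)), Or.inl ⟨fun h => by
      have e0 : t ^ 1 * (t + 1) ^ 1 = (1 : k) * ((t * (t + 1)) - (0)) := by (first | rfl | ring1 | (simp only [bb, cc]; ring1))
      rw [sub_eq_zero.mpr h, mul_zero] at e0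
      exact nz ht ht1 1 1 e0, by (first | rfl | ring1 | (simp only [bb, cc]; ring1))⟩⟩

include ht ht1 in
lemma r34 : LineOK (bb t) (cc t) (t) (t ^ 2) (t * (t + 1)) (0)
    (-(1)) (t * (t + 1)) := by
  refine ⟨by (first | rfl | ring1 | (simp only [bb, cc]; ring1)), Or.inl ⟨fun h => by
      have e0 : t ^ 2 * (t + 1) ^ 0 = (-1 : k) * ((t) - (t * (t + 1))) := by (first | rfl | ring1 | (simp only [bb, cc]; ring1))
      rw [sub_eq_zero.mpr h, mul_zero] at e0
      exact nz ht ht1 2 0 e0, by (first | rfl | ring1 | (simp only [bb, cc]; ring1))⟩⟩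

include ht ht1 in
lemma r35 : LineOK (bb t) (cc t) (t) (t ^ 2) (0) (t * (t + 1))
    (-(1)) (t * (t + 1)) := by
  refine ⟨by (first | rfl | ring1 | (simp only [bb, cc]; ring1)), Or.inl ⟨fun h => by
      have e0 : t ^ 1 * (t + 1) ^ 0 = (1 : k) * ((t) - (0)) := by (first | rfl | ring1 | (simp only [bb, cc]; ring1))
      rw [sub_eq_zero.mpr h, mul_zero] at e0
      exact nz ht ht1 1 0 e0, by (first | rfl | ring1 | (simp only [bb, cc]; ring1))⟩⟩

include ht ht1 in
lemma r44 : LineOK (bb t) (cc t) (t * (t + 1)) (0) (t * (t + 1)) (0)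
    (-((t + 1))) (t * (t + 1) ^ 2) := by
  refine ⟨by (first | rfl | ring1 | (simp only [bb, cc]; ring1)), Or.inr ⟨rfl, rfl, fun h => by
      have e0 : t ^ 2 * (t + 1) ^ 1 = (-1 : k) * (2 * (0) + (1 - cc t) * (t * (t + 1)) - bb t) := by (first | rfl | ring1 | (simp only [bb, cc]; ring1))
      rw [h, mul_zero] at e0
      exact nz ht ht1 2 1 e0, by (first | rfl | ring1 | (simp only [bb, cc]; ring1))⟩⟩

include ht ht1 in
lemma r45 : LineOK (bb t) (cc t) (t * (t + 1)) (0) (0) (t * (t + 1))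
    (-(1)) (t * (t + 1)) := by
  refine ⟨by (first | rfl | ring1 | (simp only [bb, cc]; ring1)), Or.inl ⟨fun h => by
      have e0 : t ^ 1 * (t + 1) ^ 1 = (1 : k) * ((t * (t + 1)) - (0)) := by (first | rfl | ring1 | (simp only [bb, cc]; ring1))
      rw [sub_eq_zero.mpr h, mul_zero] at e0
      exact nz ht ht1 1 1 e0, by (first | rfl | ring1 | (simp only [bb, cc]; ring1))⟩⟩

include ht ht1 in
lemma r55 : LineOK (bb t) (cc t) (0) (t * (t + 1)) (0) (t * (t + 1))
    ((t - 1)) (t * (t + 1)) := by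
  refine ⟨by (first | rfl | ring1 | (simp only [bb, cc]; ring1)), Or.inr ⟨rfl, rfl, fun h => by
      have e0 : t ^ 1 * (t + 1) ^ 1 = (1 : k) * (2 * (t * (t + 1)) + (1 - cc t) * (0) - bb t) := by (first | rfl | ring1 | (simp only [bb, cc]; ring1))
      rw [h, mul_zero] at e0
      exact nz ht ht1 1 1 e0, by (first | rfl | ring1 | (simp only [bb, cc]; ring1))⟩⟩

end table

variable [DecidableEq k]

/-- the multiples -/
lemma mem6 (ht : t ≠ 0) (ht1 : t + 1 ≠ 0) (hb : bb t ≠ 0) (h6 : (6 : ℕ) • P0 (cc t) hb = 0) {a a' : k}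
    (h : inH (AddSubgroup.zmultiples (P0 (cc t) hb)) a a') : ∃ i, a = px t i ∧ a' = py t i := by
  obtain ⟨h1, h2⟩ := h
  obtain ⟨n, hn, hn'⟩ := mem_zm (by norm_num : 0 < 6) h6 h2
  obtain ⟨n2, e2⟩ := two_P0 (c := cc t) hb
  obtain ⟨n3, e3⟩ := three_P0 (c := cc t) hb
  have e1 : (1 : ℕ) • P0 (cc t) hb = .some 0 0 (ns0 hb) := by rw [one_nsmul]; rfl
  interval_cases n
  · rw [zero_nsmul] at hn'
    exact absurd hn'.symm (Point.some_ne_zero _)
  · rw [e1] at hn'
    simp only [Point.some.injEq] at hn'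
    refine ⟨0, ?_, ?_⟩
    · rw [← hn'.1]; show _ = 0; (first | rfl | ring1 | (simp only [bb, cc]; ring1))
    · rw [← hn'.2]; show _ = 0; (first | rfl | ring1 | (simp only [bb, cc]; ring1))
  · rw [e2] at hn'
    simp only [Point.some.injEq] at hn'
    refine ⟨1, ?_, ?_⟩
    · rw [← hn'.1]; show _ = t * (t + 1); (first | rfl | ring1 | (simp only [bb, cc]; ring1))
    · rw [← hn'.2]; show _ = t ^ 2 * (t + 1); (first | rfl | ring1 | (simp only [bb, cc]; ring1))
  · rw [e3] at hn'
    simp only [Point.some.injEq] at hn'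
    refine ⟨2, ?_, ?_⟩
    · rw [← hn'.1]; show _ = t; (first | rfl | ring1 | (simp only [bb, cc]; ring1))
    · rw [← hn'.2]; show _ = t ^ 2; (first | rfl | ring1 | (simp only [bb, cc]; ring1))
  · obtain ⟨g1, g2⟩ := mem_neg hb h6 (by norm_num : 4 + 2 = 6) hn' e2
    refine ⟨3, ?_, ?_⟩
    · rw [g1]; show _ = t * (t + 1); (first | rfl | ring1 | (simp only [bb, cc]; ring1))
    · rw [g2]; show _ = 0; (first | rfl | ring1 | (simp only [bb, cc]; ring1))
  · obtain ⟨g1, g2⟩ := mem_neg hb h6 (by norm_num : 5 + 1 = 6) hn' e1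
    refine ⟨4, ?_, ?_⟩
    · rw [g1]; show _ = 0; (first | rfl | ring1 | (simp only [bb, cc]; ring1))
    · rw [g2]; show _ = t * (t + 1); (first | rfl | ring1 | (simp only [bb, cc]; ring1))

/-- the basis consists of functions supported on the multiples -/
lemma isUn_uF (ht : t ≠ 0) (ht1 : t + 1 ≠ 0) (hb : bb t ≠ 0) (h : UEG.Gen (Wt (bb t) (cc t)) x y) (j : Fin 5) :
    IsUn (AddSubgroup.zmultiples (P0 (cc t) hb)) x y (uF t x y j) := by
  have m1 := inH_one (c := cc t) hb
  have m2 := inH_two (c := cc t) hb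
  have m3 := inH_three (c := cc t) hb
  fin_cases j
  · have := isUn_x h m1
    rwa [map_zero, sub_zero] at this
  · exact isUn_x h m2
  · exact isUn_x h m3
  · have h' : LineOK (bb t) (cc t) 0 0 0 0 0 0 := by
      refine ⟨by ring, Or.inr ⟨rfl, rfl, fun h' => hb (by linear_combination -h'), by ring⟩⟩
    have := isUn_line h m1 m1 h'
    show IsUn _ _ _ y
    simpa using this
  · have h' : LineOK (bb t) (cc t) 0 0 (bb t) (bb t * cc t) (cc t) 0 :=
      ⟨by ring, Or.inl ⟨Ne.symm hb, by ring⟩⟩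
    have := isUn_line h m1 m2 h'
    rwa [map_zero, add_zero] at this

/-- **the functions supported on the multiples of a point of order 6** -/
theorem isUn6 (ht : t ≠ 0) (ht1 : t + 1 ≠ 0) (hb : bb t ≠ 0) (h6 : (6 : ℕ) • P0 (cc t) hb = 0)
    (h : UEG.Gen (Wt (bb t) (cc t)) x y) (f : F) :
    IsUn (AddSubgroup.zmultiples (P0 (cc t) hb)) x y f ↔ IsMon k (uF t x y) f := by
  have hg := UE4.of_UEG h
  have hun := isUn_uF ht ht1 hb h
  have hu : ∀ j, uF t x y j ≠ 0 := fun j => (hun j).1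
  have he := hg.eq
  have M0 : IsMon k (uF t x y) x := isMon_u (u := uF t x y) 0
  have M1 : IsMon k (uF t x y) (x - algebraMap k F (bb t)) := isMon_u (u := uF t x y) 1
  have M2 : IsMon k (uF t x y) (x - algebraMap k F (cc t)) := isMon_u (u := uF t x y) 2
  refine isUn_tab h hu hun (px t) (py t) (fun a a' ha => mem6 ht ht1 hb h6 ha) ?_ ?_ f
  · intro i
    fin_cases i
    · show IsMon k _ (x - algebraMap k F 0)
      rw [map_zero, sub_zero]; exact M0
    · show IsMon k _ (x - algebraMap k F (t * (t + 1)))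
      rw [show (t * (t + 1) : k) = bb t by (first | rfl | ring1 | (simp only [bb, cc]; ring1))]; exact M1
    · show IsMon k _ (x - algebraMap k F (t))
      rw [show (t : k) = cc t by (first | rfl | ring1 | (simp only [bb, cc]; ring1))]; exact M2
    · show IsMon k _ (x - algebraMap k F (t * (t + 1)))
      rw [show (t * (t + 1) : k) = bb t by (first | rfl | ring1 | (simp only [bb, cc]; ring1))]; exact M1
    · show IsMon k _ (x - algebraMap k F 0)
      rw [map_zero, sub_zero]; exact M0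
  · intro i j hij
    fin_cases i <;> fin_cases j
    · exact Or.inr ⟨_, _, r11 ht ht1, l114 ht hu he⟩
    · exact Or.inr ⟨_, _, r12 ht ht1, l123 ht hu he⟩
    · exact Or.inr ⟨_, _, r13 ht ht1, l123 ht hu he⟩
    · exact Or.inr ⟨_, _, r14 ht ht1, l114 ht hu he⟩
    · exact Or.inl ⟨rfl, by show (0 : k) = -(t * (t + 1)) - (1 - cc t) * (0) + bb t; (first | rfl | ring1 | (simp only [bb, cc]; ring1))⟩
    · exact absurd hij (by decide)
    · exact Or.inr ⟨_, _, r22 ht ht1, l222 ht hu he⟩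
    · exact Or.inr ⟨_, _, r23 ht ht1, l123 ht hu he⟩
    · exact Or.inl ⟨rfl, by show (t ^ 2 * (t + 1) : k) = -(0) - (1 - cc t) * (t * (t + 1)) + bb t; (first | rfl | ring1 | (simp only [bb, cc]; ring1))⟩
    · exact Or.inr ⟨_, _, r25 ht ht1, l255 ht hu he⟩
    · exact absurd hij (by decide)
    · exact absurd hij (by decide)
    · exact Or.inl ⟨rfl, by show (t ^ 2 : k) = -(t ^ 2) - (1 - cc t) * (t) + bb t; (first | rfl | ring1 | (simp only [bb, cc]; ring1))⟩
    · exact Or.inr ⟨_, _, r34 ht ht1, l345 ht hu he⟩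
    · exact Or.inr ⟨_, _, r35 ht ht1, l345 ht hu he⟩
    · exact absurd hij (by decide)
    · exact absurd hij (by decide)
    · exact absurd hij (by decide)
    · exact Or.inr ⟨_, _, r44 ht ht1, l444 ht hu he⟩
    · exact Or.inr ⟨_, _, r45 ht ht1, l345 ht hu he⟩
    · exact absurd hij (by decide)
    · exact absurd hij (by decide)
    · exact absurd hij (by decide)
    · exact absurd hij (by decide)
    · exact Or.inr ⟨_, _, r55 ht ht1, l255 ht hu he⟩

end Pool.Agent.UE6
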