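import Pool.Agent.Lib_helper76.UE6.U6
import Pool.Agent.Lib_helper76.FAM.L45
import Pool.Agent.Lib_helper60.N6.KD

/-!
# Order six: the solutions are quotients of lines through a point of the curve
-/

set_option autoImplicit false
set_option linter.unusedSectionVars false
set_option linter.unusedSimpArgs false
set_option linter.unusedVariables false

namespace Pool.Agent.UE6

open WeierstrassCurve.Affine Polynomial UEG FK4
open TN (Wt Orb)

variable {k : Type*} [Field k] [DecidableEq k] {F : Type*} [Field F] [Algebra k F] {t : k}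
  {x y : F}

lemma gen6 (h : Generic (Wt (bb t) (cc t)) x y) : TN.Gen (bb t) (cc t) x y := UE4.of_UEG h.toU

variable (ht : t ≠ 0) (ht1 : t + 1 ≠ 0)

include ht ht1 in
/-- the functions supported on the multiples -/
lemma suppM (hb : bb t ≠ 0) (hO : addOrderOf (P0 (cc t) hb) = 6)
    (h : Generic (Wt (bb t) (cc t)) x y) (f : F) :
    Supp (AddSubgroup.zmultiples (P0 (cc t) hb)) x y f ↔ IsMon k (uF t x y) f := by
  rw [supp_iff]
  exact isUn6 ht ht1 hb (by rw [← hO]; exact addOrderOf_nsmul_eq_zero _) h.toU f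

variable (hb : bb t ≠ 0) (hO : addOrderOf (P0 (cc t) hb) = 6)
  (h : Generic (Wt (bb t) (cc t)) x y)

lemma inH_cast {b c : k} {H : AddSubgroup (Wt b c).Point} {a₁ a₂ b₁ b₂ : k} (h : inH H a₁ a₂)
    (h1 : a₁ = b₁) (h2 : a₂ = b₂) : inH H b₁ b₂ := by
  rw [← h1, ← h2]; exact h

lemma pt1 : inH (AddSubgroup.zmultiples (P0 (cc t) hb)) (0) (0) :=
  inH_cast (inH_one (c := cc t) hb) (by first | rfl | ring1 | (simp only [bb, cc]; ring1)) (by first | rfl | ring1 | (simp only [bb, cc]; ring1))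

lemma pt2 : inH (AddSubgroup.zmultiples (P0 (cc t) hb)) (t * (t + 1)) (t ^ 2 * (t + 1)) :=
  inH_cast (inH_two (c := cc t) hb) (by first | rfl | ring1 | (simp only [bb, cc]; ring1)) (by first | rfl | ring1 | (simp only [bb, cc]; ring1))

lemma pt3 : inH (AddSubgroup.zmultiples (P0 (cc t) hb)) (t) (t ^ 2) :=
  inH_cast (inH_three (c := cc t) hb) (by first | rfl | ring1 | (simp only [bb, cc]; ring1)) (by first | rfl | ring1 | (simp only [bb, cc]; ring1))

lemma pt4 : inH (AddSubgroup.zmultiples (P0 (cc t) hb)) (t * (t + 1)) (0) :=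
  inH_cast (inH_neg (inH_two (c := cc t) hb)) (by first | rfl | ring1 | (simp only [bb, cc]; ring1)) (by first | rfl | ring1 | (simp only [bb, cc]; ring1))

lemma pt5 : inH (AddSubgroup.zmultiples (P0 (cc t) hb)) (0) (t * (t + 1)) :=
  inH_cast (inH_neg (inH_one (c := cc t) hb)) (by first | rfl | ring1 | (simp only [bb, cc]; ring1)) (by first | rfl | ring1 | (simp only [bb, cc]; ring1))

include ht ht1 hO h in
lemma s114 : Supp (AddSubgroup.zmultiples (P0 (cc t) hb)) x y
    (y - (algebraMap k F (0) * x + algebraMap k F (0))) :=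
  (suppM ht ht1 hb hO h _).mpr (l114 ht (fun j => (isUn_uF ht ht1 hb h.toU j).1) (gen6 h).eq)

include ht ht1 hO h in
lemma s123 : Supp (AddSubgroup.zmultiples (P0 (cc t) hb)) x y
    (y - (algebraMap k F (t) * x + algebraMap k F (0))) :=
  (suppM ht ht1 hb hO h _).mpr (l123 ht (fun j => (isUn_uF ht ht1 hb h.toU j).1) (gen6 h).eq)

include ht ht1 hO h in
lemma s222 : Supp (AddSubgroup.zmultiples (P0 (cc t) hb)) x y
    (y - (algebraMap k F (2 * t) * x + algebraMap k F (-(t ^ 2 * (t + 1))))) :=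
  (suppM ht ht1 hb hO h _).mpr (l222 ht (fun j => (isUn_uF ht ht1 hb h.toU j).1) (gen6 h).eq)

include ht ht1 hO h in
lemma s255 : Supp (AddSubgroup.zmultiples (P0 (cc t) hb)) x y
    (y - (algebraMap k F ((t - 1)) * x + algebraMap k F (t * (t + 1)))) :=
  (suppM ht ht1 hb hO h _).mpr (l255 ht (fun j => (isUn_uF ht ht1 hb h.toU j).1) (gen6 h).eq)

include ht ht1 hO h in
lemma s345 : Supp (AddSubgroup.zmultiples (P0 (cc t) hb)) x y
    (y - (algebraMap k F (-(1)) * x + algebraMap k F (t * (t + 1)))) :=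
  (suppM ht ht1 hb hO h _).mpr (l345 ht (fun j => (isUn_uF ht ht1 hb h.toU j).1) (gen6 h).eq)

include ht ht1 hO h in
lemma s444 : Supp (AddSubgroup.zmultiples (P0 (cc t) hb)) x y
    (y - (algebraMap k F (-((t + 1))) * x + algebraMap k F (t * (t + 1) ^ 2))) :=
  (suppM ht ht1 hb hO h _).mpr (l444 ht (fun j => (isUn_uF ht ht1 hb h.toU j).1) (gen6 h).eq)

include ht ht1 hO h in
lemma sx1 : Supp (AddSubgroup.zmultiples (P0 (cc t) hb)) x y (x - algebraMap k F (0)) := by
  rw [supp_iff]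
  exact isUn_x h.toU (pt1 hb)

include ht ht1 hO h in
lemma sx2 : Supp (AddSubgroup.zmultiples (P0 (cc t) hb)) x y (x - algebraMap k F (t * (t + 1))) := by
  rw [supp_iff]
  exact isUn_x h.toU (pt2 hb)

include ht ht1 hO h in
lemma sx3 : Supp (AddSubgroup.zmultiples (P0 (cc t) hb)) x y (x - algebraMap k F (t)) := by
  rw [supp_iff]
  exact isUn_x h.toU (pt3 hb)

include ht ht1 hb h in
lemma nzs : x ≠ 0 ∧ x - algebraMap k F (t ^ 2 + t) ≠ 0 ∧ x - algebraMap k F t ≠ 0 ∧ y ≠ 0 ∧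
    y - algebraMap k F t * x ≠ 0 := by
  have hu := fun j => (isUn_uF ht ht1 hb h.toU j).1
  exact ⟨hu 0, hu 1, hu 2, hu 3, hu 4⟩

include ht ht1 hO h in
lemma ab0 : LineS (AddSubgroup.zmultiples (P0 (cc t) hb)) x y (N6.cA t x y 0) ∧
    LineS (AddSubgroup.zmultiples (P0 (cc t) hb)) x y (N6.cB t x y 0) := by
  obtain ⟨N0, N1, N2, N3, N4⟩ := nzs ht ht1 hb h
  have sT := (supp_one : Supp (AddSubgroup.zmultiples (P0 (cc t) hb)) x y (1 : F))
  have hT0 := sT.1
  have hZ : N6.X t x y 0 = algebraMap k F (1) * (x - algebraMap k F (0)) / (1 : F) := by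
    show x = _
    rw [map_zero, map_one, sub_zero, one_mul, div_one]
  have key := LineS.four_cr (S := (0 : (Wt (bb t) (cc t)).Point)) (b := bb t) (c := cc t) (κb := 1) (κc := 1) hb ht
    (fun h' => nz ht ht1 2 0 (by unfold bb cc at h'; linear_combination h'))
    (fun h' => nz ht ht1 0 0 (by have e0 : t ^ 0 * (t + 1) ^ 0 = (1 : k) * (1) := (by ring1); rw [e0, h', mul_zero]))
    (fun h' => nz ht ht1 0 0 (by have e0 : t ^ 0 * (t + 1) ^ 0 = (1 : k) * (1) := (by ring1); rw [e0, h', mul_zero]))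
    (Thr.smul (1) (thr_vert0 _)) thr_one sT
    (Supp.mul (supp_const (c := 1) one_ne_zero) (sx1 ht ht1 hb hO h))
    (sx2 ht ht1 hb hO h) (sx3 ht ht1 hb hO h) hZ
    (by
      obtain ⟨T, hT⟩ : ∃ T, T = algebraMap k F t := ⟨_, rfl⟩
      simp only [bb, cc, map_add, map_sub, map_mul, map_pow, map_neg, map_one, map_zero, map_ofNat, ← hT]
      ring1)
    (by
      obtain ⟨T, hT⟩ : ∃ T, T = algebraMap k F t := ⟨_, rfl⟩
      simp only [bb, cc, map_add, map_sub, map_mul, map_pow, map_neg, map_one, map_zero, map_ofNat, ← hT]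
      ring1)
  exact ⟨key.1, key.2.1⟩

include ht ht1 hO h in
lemma ab1 : LineS (AddSubgroup.zmultiples (P0 (cc t) hb)) x y (N6.cA t x y 1) ∧
    LineS (AddSubgroup.zmultiples (P0 (cc t) hb)) x y (N6.cB t x y 1) := by
  obtain ⟨N0, N1, N2, N3, N4⟩ := nzs ht ht1 hb h
  obtain ⟨hS, -⟩ := pt2 hb
  have sT := (s255 ht ht1 hb hO h : Supp (AddSubgroup.zmultiples (P0 (cc t) hb)) x y (y - (algebraMap k F ((t - 1)) * x + algebraMap k F (t * (t + 1)))))
  have hT0 := sT.1
  have hZ : N6.X t x y 1 = algebraMap k F (t * (t + 1)) * (x - algebraMap k F (t * (t + 1))) / (y - (algebraMap k F ((t - 1)) * x + algebraMap k F (t * (t + 1)))) := by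
    show algebraMap k F (t ^ 2 + t) * y / x ^ 2 = _
    rw [div_eq_div_iff (pow_ne_zero 2 N0) hT0]
    have he := (gen6 h).eq
    obtain ⟨T, hT⟩ : ∃ T, T = algebraMap k F t := ⟨_, rfl⟩
    simp only [bb, cc, map_add, map_sub, map_mul, map_pow, map_neg, map_one, map_zero, map_ofNat, ← hT] at he ⊢
    linear_combination (T ^ 2 + T) * he
  have key := LineS.four_cr (S := (Point.some _ _ hS)) (b := bb t) (c := cc t) (κb := -(t * (t + 1))) (κc := -(t)) hb ht
    (fun h' => nz ht ht1 2 0 (by unfold bb cc at h'; linear_combination h'))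
    (fun h' => nz ht ht1 1 1 (by have e0 : t ^ 1 * (t + 1) ^ 1 = (-1 : k) * (-(t * (t + 1))) := (by ring1); rw [e0, h', mul_zero]))
    (fun h' => nz ht ht1 1 0 (by have e0 : t ^ 1 * (t + 1) ^ 0 = (-1 : k) * (-(t)) := (by ring1); rw [e0, h', mul_zero]))
    (Thr.smul (t * (t + 1)) (thr_vert hS)) (thr_line hS (by ring1)) sT
    (Supp.mul (supp_const (c := t * (t + 1)) (fun h' => nz ht ht1 1 1 (by have e0 : t ^ 1 * (t + 1) ^ 1 = (1 : k) * (t * (t + 1)) := (by ring1); rw [e0, h', mul_zero]))) (sx2 ht ht1 hb hO h))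
    (s123 ht ht1 hb hO h) (s222 ht ht1 hb hO h) hZ
    (by
      obtain ⟨T, hT⟩ : ∃ T, T = algebraMap k F t := ⟨_, rfl⟩
      simp only [bb, cc, map_add, map_sub, map_mul, map_pow, map_neg, map_one, map_zero, map_ofNat, ← hT]
      ring1)
    (by
      obtain ⟨T, hT⟩ : ∃ T, T = algebraMap k F t := ⟨_, rfl⟩
      simp only [bb, cc, map_add, map_sub, map_mul, map_pow, map_neg, map_one, map_zero, map_ofNat, ← hT]
      ring1)
  exact ⟨key.1, key.2.1⟩

include ht ht1 hO h in
lemma ab2 : LineS (AddSubgroup.zmultiples (P0 (cc t) hb)) x y (N6.cA t x y 2) ∧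
    LineS (AddSubgroup.zmultiples (P0 (cc t) hb)) x y (N6.cB t x y 2) := by
  obtain ⟨N0, N1, N2, N3, N4⟩ := nzs ht ht1 hb h
  obtain ⟨hS, -⟩ := pt4 hb
  have sT := (s444 ht ht1 hb hO h : Supp (AddSubgroup.zmultiples (P0 (cc t) hb)) x y (y - (algebraMap k F (-((t + 1))) * x + algebraMap k F (t * (t + 1) ^ 2))))
  have hT0 := sT.1
  have hZ : N6.X t x y 2 = algebraMap k F (t * (t + 1)) * (y - (algebraMap k F (-(1)) * x + algebraMap k F (t * (t + 1)))) / (y - (algebraMap k F (-((t + 1))) * x + algebraMap k F (t * (t + 1) ^ 2))) := by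
    show algebraMap k F (t ^ 2 + t) * x * (y - algebraMap k F t * x) / (y * (x - algebraMap k F (t ^ 2 + t))) = _
    rw [div_eq_div_iff (mul_ne_zero N3 N1) hT0]
    have he := (gen6 h).eq
    obtain ⟨T, hT⟩ : ∃ T, T = algebraMap k F t := ⟨_, rfl⟩
    simp only [bb, cc, map_add, map_sub, map_mul, map_pow, map_neg, map_one, map_zero, map_ofNat, ← hT] at he ⊢
    linear_combination (T ^ 4 + 2 * T ^ 3 + T ^ 2) * he
  have key := LineS.four_cr (S := (Point.some _ _ hS)) (b := bb t) (c := cc t) (κb := -(t ^ 2 * (t + 1))) (κc := t ^ 2) hb ht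
    (fun h' => nz ht ht1 2 0 (by unfold bb cc at h'; linear_combination h'))
    (fun h' => nz ht ht1 2 1 (by have e0 : t ^ 2 * (t + 1) ^ 1 = (-1 : k) * (-(t ^ 2 * (t + 1))) := (by ring1); rw [e0, h', mul_zero]))
    (fun h' => nz ht ht1 2 0 (by have e0 : t ^ 2 * (t + 1) ^ 0 = (1 : k) * (t ^ 2) := (by ring1); rw [e0, h', mul_zero]))
    (Thr.smul (t * (t + 1)) (thr_line hS (by ring1))) (thr_line hS (by ring1)) sT
    (Supp.mul (supp_const (c := t * (t + 1)) (fun h' => nz ht ht1 1 1 (by have e0 : t ^ 1 * (t + 1) ^ 1 = (1 : k) * (t * (t + 1)) := (by ring1); rw [e0, h', mul_zero]))) (s345 ht ht1 hb hO h))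
    (sx2 ht ht1 hb hO h) (s114 ht ht1 hb hO h) hZ
    (by
      obtain ⟨T, hT⟩ : ∃ T, T = algebraMap k F t := ⟨_, rfl⟩
      simp only [bb, cc, map_add, map_sub, map_mul, map_pow, map_neg, map_one, map_zero, map_ofNat, ← hT]
      ring1)
    (by
      obtain ⟨T, hT⟩ : ∃ T, T = algebraMap k F t := ⟨_, rfl⟩
      simp only [bb, cc, map_add, map_sub, map_mul, map_pow, map_neg, map_one, map_zero, map_ofNat, ← hT]
      ring1)
  exact ⟨key.1, key.2.1⟩

include ht ht1 hO h in
lemma ab3 : LineS (AddSubgroup.zmultiples (P0 (cc t) hb)) x y (N6.cA t x y 3) ∧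
    LineS (AddSubgroup.zmultiples (P0 (cc t) hb)) x y (N6.cB t x y 3) := by
  obtain ⟨N0, N1, N2, N3, N4⟩ := nzs ht ht1 hb h
  have sT := (sx3 ht ht1 hb hO h : Supp (AddSubgroup.zmultiples (P0 (cc t) hb)) x y (x - algebraMap k F (t)))
  have hT0 := sT.1
  have hZ : N6.X t x y 3 = algebraMap k F (t) * (x - algebraMap k F (t * (t + 1))) / (x - algebraMap k F (t)) := by
    show algebraMap k F t * (x - algebraMap k F (t ^ 2 + t)) / (x - algebraMap k F t) = _
    rw [div_eq_div_iff N2 hT0]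
    have he := (gen6 h).eq
    obtain ⟨T, hT⟩ : ∃ T, T = algebraMap k F t := ⟨_, rfl⟩
    simp only [bb, cc, map_add, map_sub, map_mul, map_pow, map_neg, map_one, map_zero, map_ofNat, ← hT] at he ⊢
    linear_combination (0) * he
  have key := LineS.four_cr (S := (0 : (Wt (bb t) (cc t)).Point)) (b := bb t) (c := cc t) (κb := -(t ^ 2)) (κc := -(t ^ 3)) hb ht
    (fun h' => nz ht ht1 2 0 (by unfold bb cc at h'; linear_combination h'))
    (fun h' => nz ht ht1 2 0 (by have e0 : t ^ 2 * (t + 1) ^ 0 = (-1 : k) * (-(t ^ 2)) := (by ring1); rw [e0, h', mul_zero]))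
    (fun h' => nz ht ht1 3 0 (by have e0 : t ^ 3 * (t + 1) ^ 0 = (-1 : k) * (-(t ^ 3)) := (by ring1); rw [e0, h', mul_zero]))
    (Thr.smul (t) (thr_vert0 _)) (thr_vert0 _) sT
    (Supp.mul (supp_const (c := t) (fun h' => nz ht ht1 1 0 (by have e0 : t ^ 1 * (t + 1) ^ 0 = (1 : k) * (t) := (by ring1); rw [e0, h', mul_zero]))) (sx2 ht ht1 hb hO h))
    (sx1 ht ht1 hb hO h) (supp_one) hZ
    (by
      obtain ⟨T, hT⟩ : ∃ T, T = algebraMap k F t := ⟨_, rfl⟩
      simp only [bb, cc, map_add, map_sub, map_mul, map_pow, map_neg, map_one, map_zero, map_ofNat, ← hT]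
      ring1)
    (by
      obtain ⟨T, hT⟩ : ∃ T, T = algebraMap k F t := ⟨_, rfl⟩
      simp only [bb, cc, map_add, map_sub, map_mul, map_pow, map_neg, map_one, map_zero, map_ofNat, ← hT]
      ring1)
  exact ⟨key.1, key.2.1⟩

include ht ht1 hO h in
lemma ab4 : LineS (AddSubgroup.zmultiples (P0 (cc t) hb)) x y (N6.cA t x y 4) ∧
    LineS (AddSubgroup.zmultiples (P0 (cc t) hb)) x y (N6.cB t x y 4) := by
  obtain ⟨N0, N1, N2, N3, N4⟩ := nzs ht ht1 hb h
  obtain ⟨hS, -⟩ := pt2 hb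
  have sT := (s222 ht ht1 hb hO h : Supp (AddSubgroup.zmultiples (P0 (cc t) hb)) x y (y - (algebraMap k F (2 * t) * x + algebraMap k F (-(t ^ 2 * (t + 1))))))
  have hT0 := sT.1
  have hZ : N6.X t x y 4 = algebraMap k F (t * (t + 1)) * (y - (algebraMap k F (t) * x + algebraMap k F (0))) / (y - (algebraMap k F (2 * t) * x + algebraMap k F (-(t ^ 2 * (t + 1))))) := by
    show algebraMap k F (t ^ 2 + t) * y * (x - algebraMap k F t) / ((x - algebraMap k F (t ^ 2 + t)) * (y - algebraMap k F t * x)) = _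
    rw [div_eq_div_iff (mul_ne_zero N1 N4) hT0]
    have he := (gen6 h).eq
    obtain ⟨T, hT⟩ : ∃ T, T = algebraMap k F t := ⟨_, rfl⟩
    simp only [bb, cc, map_add, map_sub, map_mul, map_pow, map_neg, map_one, map_zero, map_ofNat, ← hT] at he ⊢
    linear_combination (T ^ 4 + T ^ 3) * he
  have key := LineS.four_cr (S := (Point.some _ _ hS)) (b := bb t) (c := cc t) (κb := t ^ 2 * (t + 1)) (κc := t ^ 2) hb ht
    (fun h' => nz ht ht1 2 0 (by unfold bb cc at h'; linear_combination h'))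
    (fun h' => nz ht ht1 2 1 (by have e0 : t ^ 2 * (t + 1) ^ 1 = (1 : k) * (t ^ 2 * (t + 1)) := (by ring1); rw [e0, h', mul_zero]))
    (fun h' => nz ht ht1 2 0 (by have e0 : t ^ 2 * (t + 1) ^ 0 = (1 : k) * (t ^ 2) := (by ring1); rw [e0, h', mul_zero]))
    (Thr.smul (t * (t + 1)) (thr_line hS (by ring1))) (thr_line hS (by ring1)) sT
    (Supp.mul (supp_const (c := t * (t + 1)) (fun h' => nz ht ht1 1 1 (by have e0 : t ^ 1 * (t + 1) ^ 1 = (1 : k) * (t * (t + 1)) := (by ring1); rw [e0, h', mul_zero]))) (s123 ht ht1 hb hO h))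
    (sx2 ht ht1 hb hO h) (s255 ht ht1 hb hO h) hZ
    (by
      obtain ⟨T, hT⟩ : ∃ T, T = algebraMap k F t := ⟨_, rfl⟩
      simp only [bb, cc, map_add, map_sub, map_mul, map_pow, map_neg, map_one, map_zero, map_ofNat, ← hT]
      ring1)
    (by
      obtain ⟨T, hT⟩ : ∃ T, T = algebraMap k F t := ⟨_, rfl⟩
      simp only [bb, cc, map_add, map_sub, map_mul, map_pow, map_neg, map_one, map_zero, map_ofNat, ← hT]
      ring1)
  exact ⟨key.1, key.2.1⟩

include ht ht1 hO h in
lemma ab5 : LineS (AddSubgroup.zmultiples (P0 (cc t) hb)) x y (N6.cA t x y 5) ∧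
    LineS (AddSubgroup.zmultiples (P0 (cc t) hb)) x y (N6.cB t x y 5) := by
  obtain ⟨N0, N1, N2, N3, N4⟩ := nzs ht ht1 hb h
  obtain ⟨hS, -⟩ := pt4 hb
  have sT := (s114 ht ht1 hb hO h : Supp (AddSubgroup.zmultiples (P0 (cc t) hb)) x y (y - (algebraMap k F (0) * x + algebraMap k F (0))))
  have hT0 := sT.1
  have hZ : N6.X t x y 5 = algebraMap k F (-(t * (t + 1))) * (x - algebraMap k F (t * (t + 1))) / (y - (algebraMap k F (0) * x + algebraMap k F (0))) := by
    show -(algebraMap k F (t ^ 2 + t) * (x - algebraMap k F (t ^ 2 + t))) / y = _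
    rw [div_eq_div_iff N3 hT0]
    have he := (gen6 h).eq
    obtain ⟨T, hT⟩ : ∃ T, T = algebraMap k F t := ⟨_, rfl⟩
    simp only [bb, cc, map_add, map_sub, map_mul, map_pow, map_neg, map_one, map_zero, map_ofNat, ← hT] at he ⊢
    linear_combination (0) * he
  have key := LineS.four_cr (S := (Point.some _ _ hS)) (b := bb t) (c := cc t) (κb := -(t * (t + 1))) (κc := -(t)) hb ht
    (fun h' => nz ht ht1 2 0 (by unfold bb cc at h'; linear_combination h'))
    (fun h' => nz ht ht1 1 1 (by have e0 : t ^ 1 * (t + 1) ^ 1 = (-1 : k) * (-(t * (t + 1))) := (by ring1); rw [e0, h', mul_zero]))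
    (fun h' => nz ht ht1 1 0 (by have e0 : t ^ 1 * (t + 1) ^ 0 = (-1 : k) * (-(t)) := (by ring1); rw [e0, h', mul_zero]))
    (Thr.smul (-(t * (t + 1))) (thr_vert hS)) (thr_line hS (by ring1)) sT
    (Supp.mul (supp_const (c := -(t * (t + 1))) (fun h' => nz ht ht1 1 1 (by have e0 : t ^ 1 * (t + 1) ^ 1 = (-1 : k) * (-(t * (t + 1))) := (by ring1); rw [e0, h', mul_zero]))) (sx2 ht ht1 hb hO h))
    (s345 ht ht1 hb hO h) (s444 ht ht1 hb hO h) hZ
    (by
      obtain ⟨T, hT⟩ : ∃ T, T = algebraMap k F t := ⟨_, rfl⟩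
      simp only [bb, cc, map_add, map_sub, map_mul, map_pow, map_neg, map_one, map_zero, map_ofNat, ← hT]
      ring1)
    (by
      obtain ⟨T, hT⟩ : ∃ T, T = algebraMap k F t := ⟨_, rfl⟩
      simp only [bb, cc, map_add, map_sub, map_mul, map_pow, map_neg, map_one, map_zero, map_ofNat, ← hT]
      ring1)
  exact ⟨key.1, key.2.1⟩

include ht ht1 hO h in
lemma c0 : LineS (AddSubgroup.zmultiples (P0 (cc t) hb)) x y (N6.cC t x y 0) := by
  obtain ⟨N0, N1, N2, N3, N4⟩ := nzs ht ht1 hb h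
  have hB : algebraMap k F (t ^ 2 + t) ≠ 0 := (_root_.map_ne_zero _).mpr hb
  have hT' : algebraMap k F t ≠ 0 := (_root_.map_ne_zero _).mpr ht
  obtain ⟨hS, -⟩ := pt1 hb
  have sb := (Supp.mul (supp_const (c := t) (fun h' => nz ht ht1 1 0 (by have e0 : t ^ 1 * (t + 1) ^ 0 = (1 : k) * (t) := (by ring1); rw [e0, h', mul_zero]))) (sx1 ht ht1 hb hO h) :
    Supp (AddSubgroup.zmultiples (P0 (cc t) hb)) x y (algebraMap k F (t) * (x - algebraMap k F (0))))
  refine ⟨Point.some _ _ hS, algebraMap k F (1) * (y - (algebraMap k F (0) * x + algebraMap k F (0))),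
    algebraMap k F (t) * (x - algebraMap k F (0)),
    Thr.smul _ (thr_line hS (by ring1)), Thr.smul _ (thr_vert hS),
    Supp.mul (supp_const (c := 1) one_ne_zero) (s114 ht ht1 hb hO h), sb, ?_, ?_⟩
  · have e : algebraMap k F (t) * (x - algebraMap k F (0)) - algebraMap k F (1) * (y - (algebraMap k F (0) * x + algebraMap k F (0))) =
        algebraMap k F (-(1)) * (y - (algebraMap k F (t) * x + algebraMap k F (0))) := by
      obtain ⟨T, hT⟩ : ∃ T, T = algebraMap k F t := ⟨_, rfl⟩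
      simp only [bb, cc, map_add, map_sub, map_mul, map_pow, map_neg, map_one, map_zero, map_ofNat, ← hT]
      ring1
    rw [e]
    exact Supp.mul (supp_const (c := -(1)) (fun h' => nz ht ht1 0 0 (by have e0 : t ^ 0 * (t + 1) ^ 0 = (-1 : k) * (-(1)) := (by ring1); rw [e0, h', mul_zero]))) (s123 ht ht1 hb hO h)
  · have e : N6.cC t x y 0 = (x * (algebraMap k F (t ^ 2 + t) * y)) / ((x ^ 2) * (algebraMap k F (t ^ 2 + t) * algebraMap k F t)) := by
      show x * (algebraMap k F (t ^ 2 + t) * y / x ^ 2) / (algebraMap k F (t ^ 2 + t) * algebraMap k F t) = _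
      rw [← mul_div_assoc, div_div]
    rw [e, div_eq_div_iff (mul_ne_zero (pow_ne_zero 2 N0) (mul_ne_zero hB hT')) sb.1]
    have he := (gen6 h).eq
    obtain ⟨T, hT⟩ : ∃ T, T = algebraMap k F t := ⟨_, rfl⟩
    simp only [bb, cc, map_add, map_sub, map_mul, map_pow, map_neg, map_one, map_zero, map_ofNat, ← hT] at he ⊢
    linear_combination (0) * he

include ht ht1 hO h in
lemma c1 : LineS (AddSubgroup.zmultiples (P0 (cc t) hb)) x y (N6.cC t x y 1) := by
  obtain ⟨N0, N1, N2, N3, N4⟩ := nzs ht ht1 hb h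
  have hB : algebraMap k F (t ^ 2 + t) ≠ 0 := (_root_.map_ne_zero _).mpr hb
  have hT' : algebraMap k F t ≠ 0 := (_root_.map_ne_zero _).mpr ht
  obtain ⟨hS, -⟩ := pt3 hb
  have sb := (Supp.mul (supp_const (c := 1) one_ne_zero) (s345 ht ht1 hb hO h) :
    Supp (AddSubgroup.zmultiples (P0 (cc t) hb)) x y (algebraMap k F (1) * (y - (algebraMap k F (-(1)) * x + algebraMap k F (t * (t + 1))))))
  refine ⟨Point.some _ _ hS, algebraMap k F ((t + 1)) * (x - algebraMap k F (t)),
    algebraMap k F (1) * (y - (algebraMap k F (-(1)) * x + algebraMap k F (t * (t + 1)))),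
    Thr.smul _ (thr_vert hS), Thr.smul _ (thr_line hS (by ring1)),
    Supp.mul (supp_const (c := (t + 1)) (fun h' => nz ht ht1 0 1 (by have e0 : t ^ 0 * (t + 1) ^ 1 = (1 : k) * ((t + 1)) := (by ring1); rw [e0, h', mul_zero]))) (sx3 ht ht1 hb hO h), sb, ?_, ?_⟩
  · have e : algebraMap k F (1) * (y - (algebraMap k F (-(1)) * x + algebraMap k F (t * (t + 1)))) - algebraMap k F ((t + 1)) * (x - algebraMap k F (t)) =
        algebraMap k F (1) * (y - (algebraMap k F (t) * x + algebraMap k F (0))) := by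
      obtain ⟨T, hT⟩ : ∃ T, T = algebraMap k F t := ⟨_, rfl⟩
      simp only [bb, cc, map_add, map_sub, map_mul, map_pow, map_neg, map_one, map_zero, map_ofNat, ← hT]
      ring1
    rw [e]
    exact Supp.mul (supp_const (c := 1) one_ne_zero) (s123 ht ht1 hb hO h)
  · have e : N6.cC t x y 1 = ((algebraMap k F (t ^ 2 + t) * y) * (algebraMap k F (t ^ 2 + t) * x * (y - algebraMap k F t * x))) / (x ^ 2 * ((y * (x - algebraMap k F (t ^ 2 + t)))) * (algebraMap k F (t ^ 2 + t) * algebraMap k F t)) := by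
      show (algebraMap k F (t ^ 2 + t) * y / x ^ 2) * (algebraMap k F (t ^ 2 + t) * x * (y - algebraMap k F t * x) / (y * (x - algebraMap k F (t ^ 2 + t)))) / (algebraMap k F (t ^ 2 + t) * algebraMap k F t) = _
      rw [div_mul_div_comm, div_div]
    rw [e, div_eq_div_iff (mul_ne_zero (mul_ne_zero (pow_ne_zero 2 N0) (mul_ne_zero N3 N1)) (mul_ne_zero hB hT')) sb.1]
    have he := (gen6 h).eq
    obtain ⟨T, hT⟩ : ∃ T, T = algebraMap k F t := ⟨_, rfl⟩
    simp only [bb, cc, map_add, map_sub, map_mul, map_pow, map_neg, map_one, map_zero, map_ofNat, ← hT] at he ⊢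
    linear_combination (x * y * T ^ 4 + 2 * x * y * T ^ 3 + x * y * T ^ 2) * he

include ht ht1 hO h in
lemma c2 : LineS (AddSubgroup.zmultiples (P0 (cc t) hb)) x y (N6.cC t x y 2) := by
  obtain ⟨N0, N1, N2, N3, N4⟩ := nzs ht ht1 hb h
  have hB : algebraMap k F (t ^ 2 + t) ≠ 0 := (_root_.map_ne_zero _).mpr hb
  have hT' : algebraMap k F t ≠ 0 := (_root_.map_ne_zero _).mpr ht
  obtain ⟨hS, -⟩ := pt5 hb
  have sb := (Supp.mul (supp_const (c := 1) one_ne_zero) (s345 ht ht1 hb hO h) :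
    Supp (AddSubgroup.zmultiples (P0 (cc t) hb)) x y (algebraMap k F (1) * (y - (algebraMap k F (-(1)) * x + algebraMap k F (t * (t + 1))))))
  refine ⟨Point.some _ _ hS, algebraMap k F (1) * (y - (algebraMap k F ((t - 1)) * x + algebraMap k F (t * (t + 1)))),
    algebraMap k F (1) * (y - (algebraMap k F (-(1)) * x + algebraMap k F (t * (t + 1)))),
    Thr.smul _ (thr_line hS (by ring1)), Thr.smul _ (thr_line hS (by ring1)),
    Supp.mul (supp_const (c := 1) one_ne_zero) (s255 ht ht1 hb hO h), sb, ?_, ?_⟩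
  · have e : algebraMap k F (1) * (y - (algebraMap k F (-(1)) * x + algebraMap k F (t * (t + 1)))) - algebraMap k F (1) * (y - (algebraMap k F ((t - 1)) * x + algebraMap k F (t * (t + 1)))) =
        algebraMap k F (t) * (x - algebraMap k F (0)) := by
      obtain ⟨T, hT⟩ : ∃ T, T = algebraMap k F t := ⟨_, rfl⟩
      simp only [bb, cc, map_add, map_sub, map_mul, map_pow, map_neg, map_one, map_zero, map_ofNat, ← hT]
      ring1
    rw [e]
    exact Supp.mul (supp_const (c := t) (fun h' => nz ht ht1 1 0 (by have e0 : t ^ 1 * (t + 1) ^ 0 = (1 : k) * (t) := (by ring1); rw [e0, h', mul_zero]))) (sx1 ht ht1 hb hO h)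
  · have e : N6.cC t x y 2 = ((algebraMap k F (t ^ 2 + t) * x * (y - algebraMap k F t * x)) * (algebraMap k F t * (x - algebraMap k F (t ^ 2 + t)))) / ((y * (x - algebraMap k F (t ^ 2 + t))) * ((x - algebraMap k F t)) * (algebraMap k F (t ^ 2 + t) * algebraMap k F t)) := by
      show (algebraMap k F (t ^ 2 + t) * x * (y - algebraMap k F t * x) / (y * (x - algebraMap k F (t ^ 2 + t)))) * (algebraMap k F t * (x - algebraMap k F (t ^ 2 + t)) / (x - algebraMap k F t)) / (algebraMap k F (t ^ 2 + t) * algebraMap k F t) = _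
      rw [div_mul_div_comm, div_div]
    rw [e, div_eq_div_iff (mul_ne_zero (mul_ne_zero (mul_ne_zero N3 N1) N2) (mul_ne_zero hB hT')) sb.1]
    have he := (gen6 h).eq
    obtain ⟨T, hT⟩ : ∃ T, T = algebraMap k F t := ⟨_, rfl⟩
    simp only [bb, cc, map_add, map_sub, map_mul, map_pow, map_neg, map_one, map_zero, map_ofNat, ← hT] at he ⊢
    linear_combination (x * T ^ 4 + x * T ^ 3 - T ^ 6 - 2 * T ^ 5 - T ^ 4) * he

include ht ht1 hO h in
lemma c3 : LineS (AddSubgroup.zmultiples (P0 (cc t) hb)) x y (N6.cC t x y 3) := by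
  obtain ⟨N0, N1, N2, N3, N4⟩ := nzs ht ht1 hb h
  have hB : algebraMap k F (t ^ 2 + t) ≠ 0 := (_root_.map_ne_zero _).mpr hb
  have hT' : algebraMap k F t ≠ 0 := (_root_.map_ne_zero _).mpr ht
  obtain ⟨hS, -⟩ := pt1 hb
  have sb := (Supp.mul (supp_const (c := 1) one_ne_zero) (s123 ht ht1 hb hO h) :
    Supp (AddSubgroup.zmultiples (P0 (cc t) hb)) x y (algebraMap k F (1) * (y - (algebraMap k F (t) * x + algebraMap k F (0)))))
  refine ⟨Point.some _ _ hS, algebraMap k F (1) * (y - (algebraMap k F (0) * x + algebraMap k F (0))),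
    algebraMap k F (1) * (y - (algebraMap k F (t) * x + algebraMap k F (0))),
    Thr.smul _ (thr_line hS (by ring1)), Thr.smul _ (thr_line hS (by ring1)),
    Supp.mul (supp_const (c := 1) one_ne_zero) (s114 ht ht1 hb hO h), sb, ?_, ?_⟩
  · have e : algebraMap k F (1) * (y - (algebraMap k F (t) * x + algebraMap k F (0))) - algebraMap k F (1) * (y - (algebraMap k F (0) * x + algebraMap k F (0))) =
        algebraMap k F (-(t)) * (x - algebraMap k F (0)) := by
      obtain ⟨T, hT⟩ : ∃ T, T = algebraMap k F t := ⟨_, rfl⟩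
      simp only [bb, cc, map_add, map_sub, map_mul, map_pow, map_neg, map_one, map_zero, map_ofNat, ← hT]
      ring1
    rw [e]
    exact Supp.mul (supp_const (c := -(t)) (fun h' => nz ht ht1 1 0 (by have e0 : t ^ 1 * (t + 1) ^ 0 = (-1 : k) * (-(t)) := (by ring1); rw [e0, h', mul_zero]))) (sx1 ht ht1 hb hO h)
  · have e : N6.cC t x y 3 = ((algebraMap k F t * (x - algebraMap k F (t ^ 2 + t))) * (algebraMap k F (t ^ 2 + t) * y * (x - algebraMap k F t))) / ((x - algebraMap k F t) * (((x - algebraMap k F (t ^ 2 + t)) * (y - algebraMap k F t * x))) * (algebraMap k F (t ^ 2 + t) * algebraMap k F t)) := by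
      show (algebraMap k F t * (x - algebraMap k F (t ^ 2 + t)) / (x - algebraMap k F t)) * (algebraMap k F (t ^ 2 + t) * y * (x - algebraMap k F t) / ((x - algebraMap k F (t ^ 2 + t)) * (y - algebraMap k F t * x))) / (algebraMap k F (t ^ 2 + t) * algebraMap k F t) = _
      rw [div_mul_div_comm, div_div]
    rw [e, div_eq_div_iff (mul_ne_zero (mul_ne_zero N2 (mul_ne_zero N1 N4)) (mul_ne_zero hB hT')) sb.1]
    have he := (gen6 h).eq
    obtain ⟨T, hT⟩ : ∃ T, T = algebraMap k F t := ⟨_, rfl⟩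
    simp only [bb, cc, map_add, map_sub, map_mul, map_pow, map_neg, map_one, map_zero, map_ofNat, ← hT] at he ⊢
    linear_combination (0) * he

include ht ht1 hO h in
lemma c4 : LineS (AddSubgroup.zmultiples (P0 (cc t) hb)) x y (N6.cC t x y 4) := by
  obtain ⟨N0, N1, N2, N3, N4⟩ := nzs ht ht1 hb h
  have hB : algebraMap k F (t ^ 2 + t) ≠ 0 := (_root_.map_ne_zero _).mpr hb
  have hT' : algebraMap k F t ≠ 0 := (_root_.map_ne_zero _).mpr ht
  obtain ⟨hS, -⟩ := pt3 hb
  have sb := (Supp.mul (supp_const (c := 1) one_ne_zero) (s123 ht ht1 hb hO h) :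
    Supp (AddSubgroup.zmultiples (P0 (cc t) hb)) x y (algebraMap k F (1) * (y - (algebraMap k F (t) * x + algebraMap k F (0)))))
  refine ⟨Point.some _ _ hS, algebraMap k F (-((t + 1))) * (x - algebraMap k F (t)),
    algebraMap k F (1) * (y - (algebraMap k F (t) * x + algebraMap k F (0))),
    Thr.smul _ (thr_vert hS), Thr.smul _ (thr_line hS (by ring1)),
    Supp.mul (supp_const (c := -((t + 1))) (fun h' => nz ht ht1 0 1 (by have e0 : t ^ 0 * (t + 1) ^ 1 = (-1 : k) * (-((t + 1))) := (by ring1); rw [e0, h', mul_zero]))) (sx3 ht ht1 hb hO h), sb, ?_, ?_⟩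
  · have e : algebraMap k F (1) * (y - (algebraMap k F (t) * x + algebraMap k F (0))) - algebraMap k F (-((t + 1))) * (x - algebraMap k F (t)) =
        algebraMap k F (1) * (y - (algebraMap k F (-(1)) * x + algebraMap k F (t * (t + 1)))) := by
      obtain ⟨T, hT⟩ : ∃ T, T = algebraMap k F t := ⟨_, rfl⟩
      simp only [bb, cc, map_add, map_sub, map_mul, map_pow, map_neg, map_one, map_zero, map_ofNat, ← hT]
      ring1
    rw [e]
    exact Supp.mul (supp_const (c := 1) one_ne_zero) (s345 ht ht1 hb hO h)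
  · have e : N6.cC t x y 4 = ((algebraMap k F (t ^ 2 + t) * y * (x - algebraMap k F t)) * (-(algebraMap k F (t ^ 2 + t) * (x - algebraMap k F (t ^ 2 + t))))) / (((x - algebraMap k F (t ^ 2 + t)) * (y - algebraMap k F t * x)) * (y) * (algebraMap k F (t ^ 2 + t) * algebraMap k F t)) := by
      show (algebraMap k F (t ^ 2 + t) * y * (x - algebraMap k F t) / ((x - algebraMap k F (t ^ 2 + t)) * (y - algebraMap k F t * x))) * (-(algebraMap k F (t ^ 2 + t) * (x - algebraMap k F (t ^ 2 + t))) / y) / (algebraMap k F (t ^ 2 + t) * algebraMap k F t) = _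
      rw [div_mul_div_comm, div_div]
    rw [e, div_eq_div_iff (mul_ne_zero (mul_ne_zero (mul_ne_zero N1 N4) N3) (mul_ne_zero hB hT')) sb.1]
    have he := (gen6 h).eq
    obtain ⟨T, hT⟩ : ∃ T, T = algebraMap k F t := ⟨_, rfl⟩
    simp only [bb, cc, map_add, map_sub, map_mul, map_pow, map_neg, map_one, map_zero, map_ofNat, ← hT] at he ⊢
    linear_combination (0) * he

include ht ht1 hO h in
lemma c5 : LineS (AddSubgroup.zmultiples (P0 (cc t) hb)) x y (N6.cC t x y 5) := by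
  obtain ⟨N0, N1, N2, N3, N4⟩ := nzs ht ht1 hb h
  have hB : algebraMap k F (t ^ 2 + t) ≠ 0 := (_root_.map_ne_zero _).mpr hb
  have hT' : algebraMap k F t ≠ 0 := (_root_.map_ne_zero _).mpr ht
  obtain ⟨hS, -⟩ := pt5 hb
  have sb := (Supp.mul (supp_const (c := t) (fun h' => nz ht ht1 1 0 (by have e0 : t ^ 1 * (t + 1) ^ 0 = (1 : k) * (t) := (by ring1); rw [e0, h', mul_zero]))) (sx1 ht ht1 hb hO h) :
    Supp (AddSubgroup.zmultiples (P0 (cc t) hb)) x y (algebraMap k F (t) * (x - algebraMap k F (0))))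
  refine ⟨Point.some _ _ hS, algebraMap k F (-(1)) * (y - (algebraMap k F ((t - 1)) * x + algebraMap k F (t * (t + 1)))),
    algebraMap k F (t) * (x - algebraMap k F (0)),
    Thr.smul _ (thr_line hS (by ring1)), Thr.smul _ (thr_vert hS),
    Supp.mul (supp_const (c := -(1)) (fun h' => nz ht ht1 0 0 (by have e0 : t ^ 0 * (t + 1) ^ 0 = (-1 : k) * (-(1)) := (by ring1); rw [e0, h', mul_zero]))) (s255 ht ht1 hb hO h), sb, ?_, ?_⟩
  · have e : algebraMap k F (t) * (x - algebraMap k F (0)) - algebraMap k F (-(1)) * (y - (algebraMap k F ((t - 1)) * x + algebraMap k F (t * (t + 1)))) =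
        algebraMap k F (1) * (y - (algebraMap k F (-(1)) * x + algebraMap k F (t * (t + 1)))) := by
      obtain ⟨T, hT⟩ : ∃ T, T = algebraMap k F t := ⟨_, rfl⟩
      simp only [bb, cc, map_add, map_sub, map_mul, map_pow, map_neg, map_one, map_zero, map_ofNat, ← hT]
      ring1
    rw [e]
    exact Supp.mul (supp_const (c := 1) one_ne_zero) (s345 ht ht1 hb hO h)
  · have e : N6.cC t x y 5 = ((-(algebraMap k F (t ^ 2 + t) * (x - algebraMap k F (t ^ 2 + t)))) * x) / (y * (algebraMap k F (t ^ 2 + t) * algebraMap k F t)) := by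
      show (-(algebraMap k F (t ^ 2 + t) * (x - algebraMap k F (t ^ 2 + t))) / y) * x / (algebraMap k F (t ^ 2 + t) * algebraMap k F t) = _
      rw [div_mul_eq_mul_div, div_div]
    rw [e, div_eq_div_iff (mul_ne_zero N3 (mul_ne_zero hB hT')) sb.1]
    have he := (gen6 h).eq
    obtain ⟨T, hT⟩ : ∃ T, T = algebraMap k F t := ⟨_, rfl⟩
    simp only [bb, cc, map_add, map_sub, map_mul, map_pow, map_neg, map_one, map_zero, map_ofNat, ← hT] at he ⊢
    linear_combination (T ^ 3 + T ^ 2) * he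

include ht ht1 hO h in
/-- the classes are quotients of lines -/
theorem lineS6 (i : Fin 6) : LineS (AddSubgroup.zmultiples (P0 (cc t) hb)) x y (N6.cA t x y i) ∧
    LineS (AddSubgroup.zmultiples (P0 (cc t) hb)) x y (N6.cB t x y i) ∧
    LineS (AddSubgroup.zmultiples (P0 (cc t) hb)) x y (N6.cC t x y i) := by
  fin_cases i
  · exact ⟨(ab0 ht ht1 hb hO h).1, (ab0 ht ht1 hb hO h).2, c0 ht ht1 hb hO h⟩
  · exact ⟨(ab1 ht ht1 hb hO h).1, (ab1 ht ht1 hb hO h).2, c1 ht ht1 hb hO h⟩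
  · exact ⟨(ab2 ht ht1 hb hO h).1, (ab2 ht ht1 hb hO h).2, c2 ht ht1 hb hO h⟩
  · exact ⟨(ab3 ht ht1 hb hO h).1, (ab3 ht ht1 hb hO h).2, c3 ht ht1 hb hO h⟩
  · exact ⟨(ab4 ht ht1 hb hO h).1, (ab4 ht ht1 hb hO h).2, c4 ht ht1 hb hO h⟩
  · exact ⟨(ab5 ht ht1 hb hO h).1, (ab5 ht ht1 hb hO h).2, c5 ht ht1 hb hO h⟩

include ht ht1 hO h in
lemma supp6 (f : F) : Supp (AddSubgroup.zmultiples (P0 (cc t) hb)) x y f ↔ N6.U t x y f := by
  rw [suppM ht ht1 hb hO h]
  constructor
  · rintro ⟨d, n, hd, rfl⟩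
    refine ⟨d, n 0, n 1, n 2, n 3, n 4, hd, ?_⟩
    rw [Fin.prod_univ_five]
    rfl
  · rintro ⟨d, a₀, a₁, a₂, a₃, a₄, hd, rfl⟩
    refine ⟨d, ![a₀, a₁, a₂, a₃, a₄], hd, ?_⟩
    rw [Fin.prod_univ_five]
    rfl

include ht ht1 hO h in
lemma sp6 : Sp (AddSubgroup.zmultiples (P0 (cc t) hb)) x y = N6.Cu t x y :=
  sp_eq (supp6 ht ht1 hb hO h)

include ht ht1 hO h in
/-- **the unit equation for a point of order six** -/
theorem unitEqS6 [CharZero k] (hk : N6.Kd 0 t) :
    UnitEqS (AddSubgroup.zmultiples (P0 (cc t) hb)) x y := by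
  refine unitEqS_of fun f h1f h2f => ?_
  obtain ⟨c, a₀, a₁, a₂, a₃, a₄, hc, rfl⟩ := (supp6 ht ht1 hb hO h f).mp h1f
  obtain ⟨c', b₀, b₁, b₂, b₃, b₄, hc', e1⟩ := (supp6 ht ht1 hb hO h _).mp h2f
  rcases N6.unit_eq ht ht1 hk (gen6 h) hc hc' (by rw [← e1]; ring) with h3 | ⟨i, h3⟩
  · exact Or.inl h3
  · right
    obtain ⟨l1, l2, l3⟩ := lineS6 ht ht1 hb hO h i
    rcases h3 with h3 | h3 | h3
    · exact l1.orb h3
    · exact l2.orb h3
    · exact l3.orb h3

end Pool.Agent.UE6
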